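import Pool.Agent.QPI.DefsF
import Pool.Agent.Helper12_Clust.Main

set_option autoImplicit false

/-!
# Squad QPI, row F_CLU: a vanishing sum vanishes cluster by cluster
-/

namespace Pool.Agent.QPI.H91

open MvPolynomial Pool.Agent.Helper12_Clust

variable {n N m B : ℕ}

theorem mem_cluster (e : Fin N → Fin m → ℕ) (B : ℕ) (i0 i : Fin N) :
    i ∈ QPI.cluster e B i0 ↔ (closeGraph e B).Reachable i0 i := by
  simp [QPI.cluster]

theorem fac (A : Fin N → MvPolynomial (Fin n) ℚ) (p : Fin m → MvPolynomial (Fin n) ℚ)
    (e : Fin N → Fin m → ℕ) (C : Finset (Fin N)) :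
    ∑ i ∈ C, A i * ∏ j, p j ^ e i j =
      (∏ j, p j ^ (⨅ i' : {i // i ∈ C}, e i' j)) *
        ∑ i : {i // i ∈ C}, A i * ∏ j, p j ^ red e C i j := by
  rw [← Finset.sum_coe_sort C, Finset.mul_sum]
  apply Finset.sum_congr rfl
  intro i _
  rw [mul_left_comm, ← Finset.prod_mul_distrib]
  congr 1
  apply Finset.prod_congr rfl
  intro j _
  rw [← pow_add]
  congr 1
  have h : (⨅ i' : {i // i ∈ C}, e i' j) ≤ e i j := ciInf_le (OrderBot.bddBelow _) i
  rw [red]
  omega

open scoped Classical in
/-- the general statement, from the fact that the sum over every cluster is zero -/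
theorem clu_of (A : Fin N → MvPolynomial (Fin n) ℚ) (p : Fin m → MvPolynomial (Fin n) ℚ)
    (e : Fin N → Fin m → ℕ) (hp : ∀ j, p j ≠ 0)
    (h : ∑ i, A i * ∏ j, p j ^ e i j = 0 → ∀ c : (closeGraph e B).ConnectedComponent,
      ∑ i ∈ Finset.univ.filter (fun i => (closeGraph e B).connectedComponentMk i = c),
        A i * ∏ j, p j ^ e i j = 0) :
    ∑ i, A i * ∏ j, p j ^ e i j = 0 ↔
      ∀ i0, ∑ i : {i // i ∈ QPI.cluster e B i0},
        A i * ∏ j, p j ^ red e (QPI.cluster e B i0) i j = 0 := by
  have hcl : ∀ i0, (Finset.univ.filter fun i => (closeGraph e B).connectedComponentMk i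
        = (closeGraph e B).connectedComponentMk i0) = QPI.cluster e B i0 := by
    intro i0
    ext i
    rw [mem_cluster]
    simp only [Finset.mem_filter, Finset.mem_univ, true_and]
    rw [SimpleGraph.ConnectedComponent.eq]
    exact ⟨fun h => h.symm, fun h => h.symm⟩
  have hne : ∀ C : Finset (Fin N), (∏ j, p j ^ (⨅ i' : {i // i ∈ C}, e i' j)) ≠ 0 := fun C =>
    Finset.prod_ne_zero_iff.2 fun j _ => pow_ne_zero _ (hp j)
  constructor
  · intro h0 i0
    have h1 := h h0 ((closeGraph e B).connectedComponentMk i0)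
    rw [hcl, fac] at h1
    exact (mul_eq_zero.1 h1).resolve_left (hne _)
  · intro h0
    have h1 : ∀ i0, ∑ i ∈ QPI.cluster e B i0, A i * ∏ j, p j ^ e i j = 0 := by
      intro i0
      rw [fac, h0 i0, mul_zero]
    rw [← Finset.sum_fiberwise_of_maps_to (s := Finset.univ)
      (t := (Finset.univ : Finset (Fin N)).image (closeGraph e B).connectedComponentMk)
      (g := (closeGraph e B).connectedComponentMk)
      (fun i _ => Finset.mem_image_of_mem _ (Finset.mem_univ i))]
    apply Finset.sum_eq_zero
    intro c hc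
    obtain ⟨i0, -, rfl⟩ := Finset.mem_image.1 hc
    rw [hcl i0]
    exact h1 i0

/-- F_CLU: bases which are constants are allowed if their exponents are close. -/
theorem cluGen (A : Fin N → MvPolynomial (Fin n) ℚ) (p : Fin m → MvPolynomial (Fin n) ℚ)
    (e : Fin N → Fin m → ℕ) (hp : ∀ j, p j ≠ 0)
    (hB : (N - 1) * (N - 2) * (∑ j, (p j).totalDegree) + ∑ i, (A i).totalDegree ≤ B)
    (h : ((∀ j, 1 ≤ (p j).totalDegree ∨ ∀ i i', e i j ≤ e i' j + B) ∧
        Pairwise fun i j => IsRelPrime (p i) (p j)) ∨ ∀ i i' j, e i j ≤ e i' j + B) :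
    ∑ i, A i * ∏ j, p j ^ e i j = 0 ↔
      ∀ i0, ∑ i : {i // i ∈ QPI.cluster e B i0},
        A i * ∏ j, p j ^ red e (QPI.cluster e B i0) i j = 0 := by
  classical
  apply clu_of A p e hp
  intro h0 c
  rcases h with ⟨hd, hcop⟩ | h
  · have h1 := Helper12_Clust.cluster A p e hp hcop
      (fun i => (closeGraph e B).connectedComponentMk i)
      (by
        intro i i' h1 h2
        by_cases hii : i = i'
        · rw [hii]
        · have hb : bound A p ≤ B := by
            rw [bound, Fintype.card_fin]
            exact hB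
          have key : ∀ a b : Fin N, gap p e a b ≤ bound A p → ∀ j, e a j ≤ e b j + B := by
            intro a b hab j
            rcases hd j with hj | hj
            · have g1 : (e a j - e b j) * (p j).totalDegree ≤ gap p e a b :=
                Finset.single_le_sum (f := fun j => (e a j - e b j) * (p j).totalDegree)
                  (fun _ _ => Nat.zero_le _) (Finset.mem_univ j)
              have g2 : (e a j - e b j) * 1 ≤ (e a j - e b j) * (p j).totalDegree :=
                Nat.mul_le_mul_left _ hj
              omega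
            · exact hj a b
          exact SimpleGraph.ConnectedComponent.sound (SimpleGraph.Adj.reachable
            (G := closeGraph e B) ⟨hii, fun j => ⟨key i i' h1 j, key i' i h2 j⟩⟩))
      _ (fun _ => 1) rfl (by simpa [term] using h0) c
    simpa [term] using h1
  · have hall : ∀ i, (closeGraph e B).connectedComponentMk i = c := by
      intro i
      obtain ⟨i', rfl⟩ := c.exists_rep
      by_cases hii : i = i'
      · rw [hii]
        rfl
      · exact SimpleGraph.ConnectedComponent.sound (SimpleGraph.Adj.reachable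
          (G := closeGraph e B) ⟨hii, fun j => ⟨h i i' j, h i' i j⟩⟩)
    rw [Finset.filter_true_of_mem (fun i _ => hall i)]
    exact h0

/-- F_CLU -/
theorem clu : CluStmt := by
  intro n N m B A p e hp hB h
  refine cluGen A p e hp hB ?_
  rcases h with ⟨h1, h2⟩ | h
  · exact Or.inl ⟨fun j => Or.inl (h1 j), h2⟩
  · exact Or.inr h

end Pool.Agent.QPI.H91
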